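import Pool.Agent.V11287.KN.Main
import Pool.Agent.Y519.HB.Last
import Pool.Agent.Y489.SM.Gc

set_option autoImplicit false

/-!
The Gauss–Bonnet–Chern integrand of curvature tensors in the quadratic span of two forms.
-/

namespace Pool.Agent.V11287.KN

open Pool.Agent.W666.GB Pool.Agent.W669.HD Pool.Agent.Y519.HB

variable {V : Type} [NormedAddCommGroup V] [InnerProductSpace ℝ V] {h k : V → V → ℝ}

theorem negSq_sqDec [FiniteDimensional ℝ V] {T : V → V → V → V → ℝ} (hT : NegSq T) :
    ∃ (n : ℕ) (x y : Fin n → V), ∀ a b c d, T a b c d = -∑ i, sqDec (x i) (y i) a b c d := by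
  obtain ⟨n, ξ, η, hT⟩ := hT
  have hr : ∀ f : V →ₗ[ℝ] ℝ, ∃ v : V, ∀ x, f x = inner ℝ v x := by
    intro f
    have : CompleteSpace V := FiniteDimensional.complete ℝ V
    refine ⟨(InnerProductSpace.toDual ℝ V).symm (LinearMap.toContinuousLinearMap f), fun x => ?_⟩
    rw [InnerProductSpace.toDual_symm_apply]
    rfl
  choose X hX using fun i => hr (ξ i)
  choose Y hY using fun i => hr (η i)
  refine ⟨n, X, Y, fun a b c d => ?_⟩
  rw [hT]
  congr 1
  refine Finset.sum_congr rfl fun i _ => ?_
  simp only [sq, sqDec, ← hX, ← hY]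

theorem kn_curv (hh : Sy h) (hk : Sy k) : AlgCurv (KN.kn h k) where
  add x x' y z w := by simp only [KN.kn, hh.add, hk.add]; ring
  smul t x y z w := by simp only [KN.kn, hh.smul, hk.smul]; ring
  anti x y z w := by simp only [KN.kn]; ring
  pair x y z w := by
    simp only [KN.kn]
    rw [hh.symm z x, hk.symm w y, hh.symm w y, hk.symm z x, hh.symm z y, hk.symm w x,
      hh.symm w x, hk.symm z y]
    ring
  bianchi x y z w := by
    simp only [KN.kn]
    rw [hh.symm y x, hh.symm z x, hh.symm z y, hk.symm y x, hk.symm z x, hk.symm z y]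
    ring

theorem qf_curv (hh : Sy h) (hk : Sy k) (α β γ : ℝ) : AlgCurv (qf α β γ h k) where
  add x x' y z w := by
    simp only [qf]
    rw [(kn_curv hh hh).add, (kn_curv hh hk).add, (kn_curv hk hk).add]
    ring
  smul t x y z w := by
    simp only [qf]
    rw [(kn_curv hh hh).smul, (kn_curv hh hk).smul, (kn_curv hk hk).smul]
    ring
  anti x y z w := by
    simp only [qf]
    rw [(kn_curv hh hh).anti, (kn_curv hh hk).anti, (kn_curv hk hk).anti]
    ring
  pair x y z w := by
    simp only [qf]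
    rw [(kn_curv hh hh).pair, (kn_curv hh hk).pair, (kn_curv hk hk).pair]
  bianchi x y z w := by
    have h1 := (kn_curv hh hh).bianchi x y z w
    have h2 := (kn_curv hh hk).bianchi x y z w
    have h3 := (kn_curv hk hk).bianchi x y z w
    simp only [qf]
    linear_combination α * h1 + 2 * β * h2 + γ * h3

/-- the vector valued form with the components `√2 h`, `√2 k` -/
noncomputable def pairForm (hh : Sy h) (hk : Sy k) : V →ₗ[ℝ] V →ₗ[ℝ] EuclideanSpace ℝ (Fin 2) :=
  LinearMap.mk₂ ℝ (fun x y => WithLp.toLp 2 ![Real.sqrt 2 * h x y, Real.sqrt 2 * k x y])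
    (fun x x' y => by
      ext i
      fin_cases i
      · simp [hh.add, mul_add]
      · simp [hk.add, mul_add])
    (fun t x y => by
      ext i
      fin_cases i
      · simp [hh.smul]; ring
      · simp [hk.smul]; ring)
    (fun x y y' => by
      ext i
      fin_cases i
      · simp [hh.add', mul_add]
      · simp [hk.add', mul_add])
    (fun t x y => by
      ext i
      fin_cases i
      · simp [hh.smul']; ring
      · simp [hk.smul']; ring)

theorem pairForm_inner (hh : Sy h) (hk : Sy k) (x y z w : V) :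
    inner ℝ (pairForm hh hk x y) (pairForm hh hk z w) = 2 * (h x y * h z w + k x y * k z w) := by
  have e : Real.sqrt 2 * Real.sqrt 2 = 2 := Real.mul_self_sqrt (by norm_num)
  rw [PiLp.inner_apply, Fin.sum_univ_two]
  simp only [pairForm, LinearMap.mk₂_apply, Matrix.cons_val_zero, Matrix.cons_val_one,
    RCLike.inner_apply, conj_trivial]
  linear_combination (h x y * h z w + k x y * k z w) * e

theorem gauss_pair (hh : Sy h) (hk : Sy k) (x y z w : V) :
    Pool.Agent.Y489.SM.gauss (pairForm hh hk) x y z w = qf 1 0 1 h k x y z w := by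
  unfold Pool.Agent.Y489.SM.gauss qf KN.kn
  rw [pairForm_inner, pairForm_inner]
  ring

theorem def_bound {m : ℕ} (e : OrthonormalBasis (Fin m × Bool) ℝ V) (hh : Sy h) (hk : Sy k)
    {δ : ℝ} (hδ : 0 ≤ δ) (hsec : ∀ a b, qf 1 0 1 h k a b a b ≤ 0) :
    roundGB m δ ≤ (-1) ^ m * gbc e (fun a b c d => qf 1 0 1 h k a b c d - δ * unitT a b c d) := by
  have hs : ∀ x y, pairForm hh hk x y = pairForm hh hk y x := by
    intro x y
    simp only [pairForm, LinearMap.mk₂_apply, hh.symm x y, hk.symm x y]
  have h1 := Pool.Agent.Y489.SM.criterion e (pairForm hh hk) hs hδ fun j hj0 hjm _ =>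
    Or.inr ⟨by
      have : Module.finrank ℝ (EuclideanSpace ℝ (Fin 2)) = 2 := by simp
      rw [this]
      omega, fun x y => by rw [gauss_pair]; exact hsec x y⟩
  have e1 : Pool.Agent.Y489.SM.shift δ (Pool.Agent.Y489.SM.gauss (pairForm hh hk)) =
      fun a b c d => qf 1 0 1 h k a b c d - δ * unitT a b c d := by
    funext a b c d
    rw [Pool.Agent.Y489.SM.shift, gauss_pair]
    rfl
  rw [e1] at h1
  exact h1

/-- a positive definite quadratic form is a sum of two squares -/
theorem qf_posdef (α β γ : ℝ) (hα : 0 < α) (hΔ : β ^ 2 < α * γ) (h k : V → V → ℝ) :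
    ∃ s t u : ℝ, ∀ a b c d, qf 1 0 1 (fun x y => s * h x y + t * k x y)
      (fun x y => 0 * h x y + u * k x y) a b c d = qf α β γ h k a b c d := by
  refine ⟨Real.sqrt α, β / Real.sqrt α, Real.sqrt (γ - β ^ 2 / α), fun a b c d => ?_⟩
  have h1 : Real.sqrt α * Real.sqrt α = α := Real.mul_self_sqrt hα.le
  have hs : Real.sqrt α ≠ 0 := (Real.sqrt_pos.2 hα).ne'
  have h2 : Real.sqrt (γ - β ^ 2 / α) * Real.sqrt (γ - β ^ 2 / α) = γ - β ^ 2 / α := by
    refine Real.mul_self_sqrt ?_
    rw [sub_nonneg, div_le_iff₀ hα]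
    linarith
  set s := Real.sqrt α with hsd
  set u := Real.sqrt (γ - β ^ 2 / α) with hud
  have h3 : s * (β / s) = β := by field_simp
  have h4 : (β / s) * (β / s) = β ^ 2 / α := by
    rw [div_mul_div_comm, h1, pow_two]
  have e1 : qf 1 0 1 (fun x y => s * h x y + (β / s) * k x y)
      (fun x y => 0 * h x y + u * k x y) a b c d = (s * s) * KN.kn h h a b c d +
        2 * (s * (β / s)) * KN.kn h k a b c d + ((β / s) * (β / s) + u * u) * KN.kn k k a b c d := by
    unfold qf KN.kn
    ring
  rw [e1, h1, h2, h3, h4]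
  unfold qf
  ring

theorem zero_curv : AlgCurv (fun _ _ _ _ : V => (0 : ℝ)) :=
  ⟨fun _ _ _ _ _ => by simp, fun _ _ _ _ _ => by simp, fun _ _ _ _ => by simp,
    fun _ _ _ _ => by simp, fun _ _ _ _ => by simp⟩

/-- minus squares, minus a multiple of the unit tensor -/
theorem neg_bound {m : ℕ} (e : OrthonormalBasis (Fin m × Bool) ℝ V) {δ : ℝ} (hδ : 0 ≤ δ)
    {R : V → V → V → V → ℝ} {n : ℕ} {x y : Fin n → V}
    (hR : ∀ a b c d, R a b c d = -(∑ i, sqDec (x i) (y i) a b c d) - δ * unitT a b c d) :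
    roundGB m δ ≤ (-1) ^ m * gbc e R := by
  have hfin : FiniteDimensional ℝ V := e.toBasis.finiteDimensional_of_finite
  have hB : FiveBlocks δ R := by
    refine ⟨1, fun _ => ⊤, fun _ => ⊥, fun _ => ⊥, fun _ _ _ _ _ => 0, fun _ _ _ _ _ => 0, n, x, y,
      fun _ => 0, fun _ => 0, ⟨?_, ?_⟩, fun _ => bot_le, fun _ => bot_le, ?_, ?_,
      fun _ => zero_curv, fun _ => zero_curv, ?_, ?_, fun _ _ _ => le_rfl, fun _ _ _ => le_rfl,
      fun _ => trivial, fun _ => trivial, ?_⟩
    · intro i j hij
      exact absurd (Subsingleton.elim i j) hij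
    · simp
    · intro _
      simp
    · intro _
      simp
    · intro i z _ a b c
      simp
    · intro i z _ a b c
      simp
    · intro a b c d
      rw [hR]
      simp
  exact cls_bound e hδ (Or.inr (Or.inl hB))

/-- a tensor with the Hopf sign on all even-dimensional subspaces, minus squares, minus a multiple
of the unit tensor -/
theorem add_bound {m : ℕ} (e : OrthonormalBasis (Fin m × Bool) ℝ V) {δ : ℝ} (hδ : 0 ≤ δ)
    {R S : V → V → V → V → ℝ} (hS : AlgCurv S) (hH : HopfOn ⊤ S) {n : ℕ} {x y : Fin n → V}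
    (hR : ∀ a b c d, R a b c d = S a b c d - (∑ i, sqDec (x i) (y i) a b c d) -
      δ * unitT a b c d) :
    roundGB m δ ≤ (-1) ^ m * gbc e R := by
  have hfin : FiniteDimensional ℝ V := e.toBasis.finiteDimensional_of_finite
  have hB : HopfBlocks δ R := by
    refine ⟨1, fun _ => ⊤, fun _ => S, n, x, y, fun _ => 0, fun _ => 0, ⟨?_, ?_⟩, fun _ => hS, ?_,
      fun _ => hH, fun _ => trivial, fun _ => trivial, ?_⟩
    · intro i j hij
      exact absurd (Subsingleton.elim i j) hij
    · simp
    · intro i z hz a b c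
      rw [Submodule.top_orthogonal_eq_bot, Submodule.mem_bot] at hz
      rw [hz]
      have := hS.smul 0 0 a b c
      simpa using this
    · intro a b c d
      rw [hR]
      simp
  exact cls_bound e hδ (Or.inl hB)

/-- **all quadratic forms** -/
theorem pencil_bound {m : ℕ} (e : OrthonormalBasis (Fin m × Bool) ℝ V) (hh : Sy h) (hk : Sy k)
    {δ : ℝ} (hδ : 0 ≤ δ) {α β γ : ℝ} (hsec : ∀ a b, qf α β γ h k a b a b ≤ 0) :
    roundGB m δ ≤ (-1) ^ m * gbc e (fun a b c d => qf α β γ h k a b c d - δ * unitT a b c d) := by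
  have hfin : FiniteDimensional ℝ V := e.toBasis.finiteDimensional_of_finite
  by_cases hq : α * γ ≤ β ^ 2 ∨ α ≤ 0
  · obtain ⟨n, x, y, hT⟩ := negSq_sqDec (span_negSq hh hk hq hsec)
    exact neg_bound e hδ (x := x) (y := y) fun a b c d => by
      show qf α β γ h k a b c d - δ * unitT a b c d = _
      rw [hT]
  · push Not at hq
    obtain ⟨s, t, u, hst⟩ := qf_posdef α β γ hq.2 hq.1 h k
    have h1 := def_bound e (hh.lin hk s t) (hh.lin hk 0 u) hδ (fun a b => by
      rw [hst]; exact hsec a b)
    have e1 : (fun a b c d => qf 1 0 1 (fun x y => s * h x y + t * k x y)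
        (fun x y => 0 * h x y + u * k x y) a b c d - δ * unitT a b c d) =
        fun a b c d => qf α β γ h k a b c d - δ * unitT a b c d := by
      funext a b c d
      rw [hst]
    rw [e1] at h1
    exact h1

/-- restrictions -/
theorem pencil_hopf [FiniteDimensional ℝ V] (hh : Sy h) (hk : Sy k) {α β γ : ℝ}
    (hsec : ∀ a b, qf α β γ h k a b a b ≤ 0) (U : Submodule ℝ V) :
    HopfOn U (qf α β γ h k) := by
  intro j E _ ε
  have h1 := pencil_bound (h := fun a b : E => h a b) (k := fun a b : E => k a b) ε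
    (hh.restrict E) (hk.restrict E) le_rfl (α := α) (β := β) (γ := γ) (fun a b => hsec a b)
  have e1 : (fun a b c d : E => qf α β γ (fun a b : E => h a b) (fun a b : E => k a b) a b c d -
      0 * unitT a b c d) = fun a b c d : E => qf α β γ h k a b c d := by
    funext a b c d
    rw [zero_mul, sub_zero]
    rfl
  rw [e1] at h1
  exact (roundGB_nonneg le_rfl).trans h1

/-- finitely many negative sums of squares -/
theorem sum_sq {J : Type} [Fintype J] {P : J → V → V → V → V → ℝ}
    (hP : ∀ j, ∃ (n : ℕ) (x y : Fin n → V), ∀ a b c d, P j a b c d =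
      -∑ i, sqDec (x i) (y i) a b c d) :
    ∃ (n : ℕ) (x y : Fin n → V), ∀ a b c d, ∑ j, P j a b c d =
      -∑ i, sqDec (x i) (y i) a b c d := by
  classical
  choose n x y hxy using hP
  let σ := Fintype.equivFin (Σ j, Fin (n j))
  refine ⟨Fintype.card (Σ j, Fin (n j)), fun i => x (σ.symm i).1 (σ.symm i).2,
    fun i => y (σ.symm i).1 (σ.symm i).2, fun a b c d => ?_⟩
  rw [Equiv.sum_comp σ.symm (fun p : Σ j, Fin (n j) => sqDec (x p.1 p.2) (y p.1 p.2) a b c d),
    Fintype.sum_sigma, ← Finset.sum_neg_distrib]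
  exact Finset.sum_congr rfl fun j _ => hxy j a b c d

end Pool.Agent.V11287.KN
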