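import Mathlib

set_option autoImplicit false

/-!
Kulkarni–Nomizu products of two symmetric bilinear forms: definitions and elementary lemmas.
-/

namespace Pool.Agent.V11287.KN

open Finset

variable {V : Type*} [AddCommGroup V] [Module ℝ V]

/-- symmetric bilinear forms -/
structure Sy (h : V → V → ℝ) : Prop where
  add : ∀ x x' y, h (x + x') y = h x y + h x' y
  smul : ∀ (t : ℝ) x y, h (t • x) y = t * h x y
  symm : ∀ x y, h x y = h y x

/-- the Kulkarni–Nomizu product -/
def kn (h k : V → V → ℝ) (x y z w : V) : ℝ :=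
  h x z * k y w + h y w * k x z - h x w * k y z - h y z * k x w

/-- the square of the decomposable two-form `ξ ∧ η` -/
def sq (ξ η : V → ℝ) (a b c d : V) : ℝ := (ξ a * η b - ξ b * η a) * (ξ c * η d - ξ d * η c)

/-- minus a finite sum of squares of decomposable two-forms -/
def NegSq (R : V → V → V → V → ℝ) : Prop :=
  ∃ (n : ℕ) (ξ η : Fin n → (V →ₗ[ℝ] ℝ)), ∀ a b c d, R a b c d = -∑ i, sq (ξ i) (η i) a b c d

section Sy

variable {h k : V → V → ℝ}

lemma Sy.add' (hh : Sy h) (x y y' : V) : h x (y + y') = h x y + h x y' := by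
  rw [hh.symm, hh.add, hh.symm y, hh.symm y']

lemma Sy.smul' (hh : Sy h) (t : ℝ) (x y : V) : h x (t • y) = t * h x y := by
  rw [hh.symm, hh.smul, hh.symm y]

lemma Sy.neg (hh : Sy h) (x y : V) : h (-x) y = -h x y := by
  rw [← neg_one_smul ℝ x, hh.smul, neg_one_mul]

lemma Sy.neg' (hh : Sy h) (x y : V) : h x (-y) = -h x y := by
  rw [hh.symm, hh.neg, hh.symm]

lemma Sy.sub (hh : Sy h) (x x' y : V) : h (x - x') y = h x y - h x' y := by
  rw [sub_eq_add_neg, hh.add, hh.neg, sub_eq_add_neg]

lemma Sy.sub' (hh : Sy h) (x y y' : V) : h x (y - y') = h x y - h x y' := by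
  rw [hh.symm, hh.sub, hh.symm y, hh.symm y']

lemma Sy.zero (hh : Sy h) (y : V) : h 0 y = 0 := by
  rw [← zero_smul ℝ (0 : V), hh.smul, zero_mul]

lemma Sy.zero' (hh : Sy h) (y : V) : h y 0 = 0 := by
  rw [hh.symm, hh.zero]

lemma Sy.sum (hh : Sy h) {ι : Type*} (s : Finset ι) (f : ι → V) (y : V) :
    h (∑ i ∈ s, f i) y = ∑ i ∈ s, h (f i) y := by
  classical
  induction s using Finset.induction_on with
  | empty => simp [hh.zero]
  | insert i s hi ih => rw [Finset.sum_insert hi, hh.add, ih, Finset.sum_insert hi]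

lemma Sy.lin (hh : Sy h) (hk : Sy k) (p q : ℝ) : Sy (fun x y => p * h x y + q * k x y) where
  add x x' y := by
    rw [hh.add, hk.add]; ring
  smul t x y := by
    rw [hh.smul, hk.smul]; ring
  symm x y := by
    rw [hh.symm x y, hk.symm x y]

/-- the linear form `h x` -/
def Sy.form (hh : Sy h) (x : V) : V →ₗ[ℝ] ℝ where
  toFun := h x
  map_add' := hh.add' x
  map_smul' t y := by rw [hh.smul']; rfl

@[simp] lemma Sy.form_apply (hh : Sy h) (x y : V) : hh.form x y = h x y := rfl

/-- polarization -/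
lemma Sy.polar (hh : Sy h) (hk : Sy k) (he : ∀ x, h x x = k x x) (x y : V) : h x y = k x y := by
  have h1 := he (x + y)
  rw [hh.add, hh.add', hh.add', hk.add, hk.add', hk.add', he x, he y, hh.symm y x,
    hk.symm y x] at h1
  linarith

end Sy

lemma kn_comm (h k : V → V → ℝ) (x y z w : V) : kn h k x y z w = kn k h x y z w := by
  unfold kn
  ring

lemma NegSq.of_fintype {R : V → V → V → V → ℝ} {ι : Type*} [Fintype ι]
    (c : ι → ℝ) (hc : ∀ i, 0 ≤ c i) (ξ η : ι → (V →ₗ[ℝ] ℝ))
    (h : ∀ a b c' d, R a b c' d = -∑ i, c i * sq (ξ i) (η i) a b c' d) : NegSq R := by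
  classical
  refine ⟨Fintype.card ι, fun i => Real.sqrt (c ((Fintype.equivFin ι).symm i)) •
    ξ ((Fintype.equivFin ι).symm i), fun i => η ((Fintype.equivFin ι).symm i),
    fun a b c' d => ?_⟩
  rw [h, neg_inj, ← (Fintype.equivFin ι).symm.sum_comp]
  refine Finset.sum_congr rfl fun i _ => ?_
  have h2 : Real.sqrt (c ((Fintype.equivFin ι).symm i)) *
      Real.sqrt (c ((Fintype.equivFin ι).symm i)) = c ((Fintype.equivFin ι).symm i) :=
    Real.mul_self_sqrt (hc _)
  unfold sq
  simp only [LinearMap.smul_apply, smul_eq_mul]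
  linear_combination -((ξ ((Fintype.equivFin ι).symm i) a * η ((Fintype.equivFin ι).symm i) b -
    ξ ((Fintype.equivFin ι).symm i) b * η ((Fintype.equivFin ι).symm i) a) *
    (ξ ((Fintype.equivFin ι).symm i) c' * η ((Fintype.equivFin ι).symm i) d -
    ξ ((Fintype.equivFin ι).symm i) d * η ((Fintype.equivFin ι).symm i) c')) * h2

lemma NegSq.zero {R : V → V → V → V → ℝ} (h : ∀ a b c d, R a b c d = 0) : NegSq R :=
  ⟨0, Fin.elim0, Fin.elim0, fun a b c d => by simp [h]⟩

lemma NegSq.add {R S T : V → V → V → V → ℝ} (hR : NegSq R) (hS : NegSq S)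
    (h : ∀ a b c d, T a b c d = R a b c d + S a b c d) : NegSq T := by
  obtain ⟨n, ξ, η, h1⟩ := hR
  obtain ⟨m, ξ', η', h2⟩ := hS
  refine NegSq.of_fintype (ι := Fin n ⊕ Fin m) (fun _ => 1) (fun _ => zero_le_one)
    (Sum.elim ξ ξ') (Sum.elim η η') fun a b c d => ?_
  rw [h, h1, h2, Fintype.sum_sum_type]
  simp only [Sum.elim_inl, Sum.elim_inr, one_mul]
  ring

lemma NegSq.smul {R S : V → V → V → V → ℝ} (hR : NegSq R) {t : ℝ} (ht : 0 ≤ t)
    (h : ∀ a b c d, S a b c d = t * R a b c d) : NegSq S := by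
  obtain ⟨n, ξ, η, h1⟩ := hR
  refine NegSq.of_fintype (fun _ => t) (fun _ => ht) ξ η fun a b c d => ?_
  rw [h, h1, ← Finset.mul_sum]
  ring

lemma NegSq.congr {R S : V → V → V → V → ℝ} (hR : NegSq R)
    (h : ∀ a b c d, S a b c d = R a b c d) : NegSq S := by
  obtain ⟨n, ξ, η, h1⟩ := hR
  exact ⟨n, ξ, η, fun a b c d => by rw [h, h1]⟩

/-- sectional nonpositivity of minus a sum of squares -/
lemma NegSq.sec {R : V → V → V → V → ℝ} (hR : NegSq R) (x y : V) : R x y x y ≤ 0 := by
  obtain ⟨n, ξ, η, h1⟩ := hR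
  rw [h1, neg_nonpos]
  exact Finset.sum_nonneg fun i _ => mul_self_nonneg _

/-- `kn` of two sums of squares of linear forms -/
lemma kn_diag {ι : Type*} [Fintype ι] {h k : V → V → ℝ} (ξ : ι → V → ℝ) (u v : ι → ℝ)
    (hh : ∀ x y, h x y = ∑ i, u i * (ξ i x * ξ i y))
    (hk : ∀ x y, k x y = ∑ i, v i * (ξ i x * ξ i y)) (a b c d : V) :
    kn h k a b c d = ∑ i, ∑ j, u i * v j * sq (ξ i) (ξ j) a b c d := by
  unfold kn
  simp only [hh, hk, Finset.sum_mul_sum]
  rw [← Finset.sum_add_distrib, ← Finset.sum_sub_distrib, ← Finset.sum_sub_distrib]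
  refine Finset.sum_congr rfl fun i _ => ?_
  rw [← Finset.sum_add_distrib, ← Finset.sum_sub_distrib, ← Finset.sum_sub_distrib]
  refine Finset.sum_congr rfl fun j _ => ?_
  unfold sq
  ring

/-- simultaneous diagonalization -/
lemma diag [FiniteDimensional ℝ V] {F G : V → V → ℝ} (hF : Sy F)
    (hpos : ∀ x, x ≠ 0 → 0 < F x x) (hG : Sy G) :
    ∃ (n : ℕ) (v : Fin n → V) (lam : Fin n → ℝ),
      (∀ i j, F (v i) (v j) = if i = j then 1 else 0) ∧
      (∀ x y, F x y = ∑ i, 1 * (F (v i) x * F (v i) y)) ∧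
      (∀ x y, G x y = ∑ i, lam i * (F (v i) x * F (v i) y)) := by
  classical
  let core : InnerProductSpace.Core ℝ V :=
    { inner := F
      conj_inner_symm := fun x y => by simpa using hF.symm y x
      re_inner_nonneg := fun x => by
        rcases eq_or_ne x 0 with h | h
        · simp [h, hF.zero]
        · simpa using (hpos x h).le
      add_left := fun x y z => hF.add x y z
      smul_left := fun x y t => by simpa using hF.smul t x y
      definite := fun x hx => by
        by_contra h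
        exact (hpos x h).ne' hx }
  letI : NormedAddCommGroup V := core.toNormedAddCommGroup
  letI : InnerProductSpace ℝ V := InnerProductSpace.ofCore core.toCore
  have hin : ∀ x y : V, inner ℝ x y = F x y := fun x y => rfl
  set n := Module.finrank ℝ V with hn
  let e := stdOrthonormalBasis ℝ V
  let T : V →ₗ[ℝ] V := ∑ i, (hG.form (e i)).smulRight (e i)
  have hT1 : ∀ x y, inner ℝ (T x) y = G x y := by
    intro x y
    have e1 : T x = ∑ i, G (e i) x • e i := by
      simp only [T, LinearMap.sum_apply, LinearMap.smulRight_apply, Sy.form_apply]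
    have e2 : G y x = ∑ i, inner ℝ (e i) y * G (e i) x := by
      conv_lhs => rw [← e.sum_repr' y]
      rw [hG.sum]
      exact Finset.sum_congr rfl fun i _ => hG.smul _ _ _
    rw [e1, sum_inner, hG.symm x y, e2]
    refine Finset.sum_congr rfl fun i _ => ?_
    rw [real_inner_smul_left]
    ring
  have hT : T.IsSymmetric := fun x y => by
    rw [hT1, real_inner_comm, hT1, hG.symm]
  set v := hT.eigenvectorBasis hn.symm with hv
  set lam := hT.eigenvalues hn.symm with hlam
  refine ⟨n, v, lam, fun i j => ?_, fun x y => ?_, fun x y => ?_⟩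
  · rw [← hin]
    exact orthonormal_iff_ite.1 v.orthonormal i j
  · rw [← hin x y, ← v.sum_inner_mul_inner x y]
    refine Finset.sum_congr rfl fun i _ => ?_
    rw [one_mul, real_inner_comm]
    rfl
  · rw [← hT1, ← v.sum_inner_mul_inner (T x) y]
    refine Finset.sum_congr rfl fun i _ => ?_
    have e3 : inner ℝ (T x) (v i) = lam i * F (v i) x := by
      rw [hT x (v i), hv, hT.apply_eigenvectorBasis, inner_smul_right, ← hv, real_inner_comm]
      rfl
    rw [e3]
    change lam i * F (v i) x * F (v i) y = _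
    ring

/-- positive semidefinite forms are sums of squares -/
lemma psd_sum [FiniteDimensional ℝ V] {h : V → V → ℝ} (hh : Sy h) (hp : ∀ x, 0 ≤ h x x) :
    ∃ (n : ℕ) (ξ : Fin n → (V →ₗ[ℝ] ℝ)) (lam : Fin n → ℝ), (∀ i, 0 ≤ lam i) ∧
      ∀ x y, h x y = ∑ i, lam i * (ξ i x * ξ i y) := by
  classical
  set b := Module.finBasis ℝ V with hb
  let F : V → V → ℝ := fun x y => ∑ i, b.coord i x * b.coord i y
  have hF : Sy F := by
    refine ⟨fun x x' y => ?_, fun t x y => ?_, fun x y => ?_⟩
    · simp only [F, map_add, add_mul, Finset.sum_add_distrib]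
    · simp only [F, map_smul, smul_eq_mul, mul_assoc, Finset.mul_sum]
    · simp only [F]
      exact Finset.sum_congr rfl fun i _ => mul_comm _ _
  have hpos : ∀ x, x ≠ 0 → 0 < F x x := by
    intro x hx
    refine lt_of_le_of_ne (Finset.sum_nonneg fun i _ => mul_self_nonneg _) fun h0 => hx ?_
    have h1 := (Finset.sum_eq_zero_iff_of_nonneg fun i _ => mul_self_nonneg _).1 h0.symm
    refine b.ext_elem fun i => ?_
    have := mul_self_eq_zero.1 (h1 i (Finset.mem_univ i))
    simpa using this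
  obtain ⟨n, v, lam, h1, h2, h3⟩ := diag hF hpos hh
  refine ⟨n, fun i => hF.form (v i), lam, fun i => ?_, h3⟩
  have h4 := hp (v i)
  rw [h3, Finset.sum_eq_single i] at h4
  · rw [h1, if_pos rfl] at h4
    linarith
  · intro j _ hj
    rw [h1, if_neg hj]
    ring
  · intro h; exact absurd (Finset.mem_univ i) h

end Pool.Agent.V11287.KN
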