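import Pool.Agent.V11287.KN.Alg

set_option autoImplicit false

/-!
Two quadratic forms without common zero in dimension at least three: some linear combination is
positive definite.
-/

namespace Pool.Agent.V11287.KN

open Finset

/-- the convex hull of a compact subset of the plane is compact -/
lemma compact_conv {K : Set (ℝ × ℝ)} (hK : IsCompact K) : IsCompact (convexHull ℝ K) := by
  classical
  rcases K.eq_empty_or_nonempty with h | ⟨x0, hx0⟩
  · rw [h, convexHull_empty]
    exact isCompact_empty
  set T : (Fin 3 → ℝ × ℝ) × (Fin 3 → ℝ) → ℝ × ℝ := fun z => ∑ i, z.2 i • z.1 i with hT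
  have hTc : Continuous T := by
    rw [hT]
    fun_prop
  have hD : IsCompact ((Set.pi Set.univ fun _ : Fin 3 => K) ×ˢ stdSimplex ℝ (Fin 3)) :=
    (isCompact_univ_pi fun _ => hK).prod (isCompact_stdSimplex _ _)
  have himg : T '' ((Set.pi Set.univ fun _ : Fin 3 => K) ×ˢ stdSimplex ℝ (Fin 3)) =
      convexHull ℝ K := by
    apply Set.Subset.antisymm
    · rintro _ ⟨⟨z, w⟩, ⟨hz, hw⟩, rfl⟩
      exact mem_convexHull_of_exists_fintype w z hw.1 hw.2 (fun i => hz i (Set.mem_univ i)) rfl
    · intro x hx
      obtain ⟨ι, hι, z, w, hz, hai, hw0, hw1, hwx⟩ := eq_pos_convex_span_of_mem_convexHull hx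
      have hcard : Fintype.card ι ≤ 3 := by
        have h1 := hai.card_le_finrank_succ
        have h2 : Module.finrank ℝ (vectorSpan ℝ (Set.range z)) ≤ 2 := by
          refine (Submodule.finrank_le _).trans ?_
          simp
        omega
      obtain ⟨e⟩ := Function.Embedding.nonempty_of_card_le
        (show Fintype.card ι ≤ Fintype.card (Fin 3) by simpa using hcard)
      set z' : Fin 3 → ℝ × ℝ := Function.extend e z (fun _ => x0) with hz'
      set w' : Fin 3 → ℝ := fun j => ∑ i, if e i = j then w i else 0 with hw'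
      refine ⟨(z', w'), ⟨fun j _ => ?_, fun j => ?_, ?_⟩, ?_⟩
      · by_cases hj : ∃ i, e i = j
        · obtain ⟨i, rfl⟩ := hj
          show z' (e i) ∈ K
          rw [hz', e.injective.extend_apply]
          exact hz ⟨i, rfl⟩
        · show z' j ∈ K
          rw [hz', Function.extend_apply' _ _ _ hj]
          exact hx0
      · exact Finset.sum_nonneg fun i _ => by split_ifs <;> [exact (hw0 i).le; exact le_rfl]
      · rw [hw', Finset.sum_comm, ← hw1]
        refine Finset.sum_congr rfl fun i _ => ?_
        simp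
      · rw [hT, ← hwx]
        simp only [hw', Finset.sum_smul]
        rw [Finset.sum_comm]
        refine Finset.sum_congr rfl fun i _ => ?_
        rw [Finset.sum_eq_single (e i)]
        · rw [if_pos rfl, hz', e.injective.extend_apply]
        · intro j _ hj
          rw [if_neg (Ne.symm hj), zero_smul]
        · intro h
          exact absurd (Finset.mem_univ _) h
  rw [← himg]
  exact hD.image hTc

variable {V : Type*} [AddCommGroup V] [Module ℝ V] {h k : V → V → ℝ}

/-- rotations: a finite family of vectors with `∑ h = 0` can be changed, keeping `∑ k`, such that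
all the vectors are null for `h` -/
lemma rot (hh : Sy h) (hk : Sy k) {ι : Type*} [Fintype ι] :
    ∀ (N : ℕ) (y : ι → V), (∃ s : Finset ι, s.card ≤ N ∧ ∀ i, i ∉ s → h (y i) (y i) = 0) →
      ∑ i, h (y i) (y i) = 0 → ∃ y' : ι → V, (∀ i, h (y' i) (y' i) = 0) ∧
        ∑ i, k (y' i) (y' i) = ∑ i, k (y i) (y i) ∧ ((∃ i, y i ≠ 0) → ∃ i, y' i ≠ 0) := by
  classical
  intro N
  induction N with
  | zero =>
    rintro y ⟨s, hs, h0⟩ -
    have : s = ∅ := Finset.card_eq_zero.1 (by omega)
    subst this
    exact ⟨y, fun i => h0 i (Finset.notMem_empty i), rfl, id⟩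
  | succ N ih =>
    rintro y ⟨s, hs, h0⟩ hsum
    by_cases hall : ∀ i, h (y i) (y i) = 0
    · exact ⟨y, hall, rfl, id⟩
    push Not at hall
    obtain ⟨l, hl⟩ := hall
    obtain ⟨i, -, hi⟩ := Finset.exists_pos_of_sum_zero_of_exists_nonzero _ hsum
      ⟨l, Finset.mem_univ l, hl⟩
    obtain ⟨j, -, hj⟩ := Finset.exists_pos_of_sum_zero_of_exists_nonzero
      (s := Finset.univ) (fun i => -h (y i) (y i)) (by rw [Finset.sum_neg_distrib, hsum, neg_zero])
      ⟨l, Finset.mem_univ l, neg_ne_zero.2 hl⟩
    have hj' : h (y j) (y j) < 0 := by linarith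
    have hij : i ≠ j := by
      rintro rfl
      linarith
    -- a root of `h (y i + t y j)`
    obtain ⟨t, ht⟩ : ∃ t : ℝ, h (y i) (y i) + 2 * t * h (y i) (y j) + t ^ 2 * h (y j) (y j) = 0 := by
      set A := h (y i) (y i)
      set B := h (y i) (y j)
      set C := h (y j) (y j)
      have hdisc : 0 ≤ B ^ 2 - A * C := by nlinarith [sq_nonneg B]
      refine ⟨(-B + Real.sqrt (B ^ 2 - A * C)) / C, ?_⟩
      have hs := Real.sq_sqrt hdisc
      have hC : C ≠ 0 := hj'.ne
      field_simp
      nlinarith [hs]
    set r := Real.sqrt (1 + t ^ 2) with hr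
    have hr2 : r ^ 2 = 1 + t ^ 2 := Real.sq_sqrt (by positivity)
    have hr0 : 0 < r := Real.sqrt_pos.2 (by positivity)
    set u := r⁻¹ • (y i + t • y j) with hu
    set v := r⁻¹ • (y j - t • y i) with hv
    have hform : ∀ {g : V → V → ℝ}, Sy g → g u u + g v v = g (y i) (y i) + g (y j) (y j) := by
      intro g hg
      rw [hu, hv]
      simp only [hg.smul, hg.smul', hg.add, hg.add', hg.sub, hg.sub']
      rw [hg.symm (y j) (y i)]
      have hr1 : r⁻¹ * r⁻¹ * (1 + t ^ 2) = 1 := by
        rw [← hr2]
        field_simp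
      linear_combination (g (y i) (y i) + g (y j) (y j)) * hr1
    have huu : h u u = 0 := by
      rw [hu]
      simp only [hh.smul, hh.smul', hh.add, hh.add']
      rw [hh.symm (y j) (y i)]
      linear_combination r⁻¹ * r⁻¹ * ht
    have hune : u ≠ 0 := by
      intro h1
      have h2 : y i + t • y j = 0 := by
        rw [hu] at h1
        exact (smul_eq_zero.1 h1).resolve_left (inv_ne_zero hr0.ne')
      have h3 : y i = -(t • y j) := eq_neg_of_add_eq_zero_left h2
      rw [h3, hh.neg, hh.neg', hh.smul, hh.smul'] at hi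
      nlinarith [sq_nonneg t]
    set y1 : ι → V := fun l => if l = i then u else if l = j then v else y l with hy1
    have hsum1 : ∀ {g : V → V → ℝ}, Sy g → ∑ l, g (y1 l) (y1 l) = ∑ l, g (y l) (y l) := by
      intro g hg
      have e1 : ∀ l, g (y1 l) (y1 l) = g (y l) (y l) +
          ((if l = i then g u u - g (y i) (y i) else 0) +
            (if l = j then g v v - g (y j) (y j) else 0)) := by
        intro l
        simp only [hy1]
        by_cases h1 : l = i
        · subst h1
          rw [if_pos rfl, if_pos rfl, if_neg hij]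
          ring
        · by_cases h2 : l = j
          · subst h2
            rw [if_neg h1, if_pos rfl, if_neg h1, if_pos rfl]
            ring
          · rw [if_neg h1, if_neg h2, if_neg h1, if_neg h2]
            ring
      rw [Finset.sum_congr rfl fun l _ => e1 l, Finset.sum_add_distrib, Finset.sum_add_distrib,
        Finset.sum_ite_eq' , Finset.sum_ite_eq', if_pos (Finset.mem_univ _),
        if_pos (Finset.mem_univ _)]
      linarith [hform hg]
    obtain ⟨y', h1, h2, h3⟩ := ih y1 ⟨s.erase i, by
        have his : i ∈ s := by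
          by_contra hcon
          exact hi.ne' (h0 i hcon)
        rw [Finset.card_erase_of_mem his]
        omega, fun l hl => by
        simp only [hy1]
        by_cases h1 : l = i
        · rw [if_pos h1]; exact huu
        · rw [if_neg h1]
          have hls : l ∉ s := fun hls => hl (Finset.mem_erase.2 ⟨h1, hls⟩)
          have h2 : l ≠ j := by
            rintro rfl
            exact hj'.ne (h0 l hls)
          rw [if_neg h2]
          exact h0 l hls⟩ (by rw [hsum1 hh, hsum])
    refine ⟨y', h1, by rw [h2, hsum1 hk], fun _ => h3 ⟨i, ?_⟩⟩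
    simp only [hy1, if_pos rfl]
    exact hune

/-- the values on a combination of three vectors -/
lemma k3 (hk : Sy k) (u w v : V) (a b c : ℝ) :
    k (a • u + b • w + c • v) (a • u + b • w + c • v) =
      a ^ 2 * k u u + b ^ 2 * k w w + c ^ 2 * k v v + 2 * a * b * k u w + 2 * a * c * k u v +
        2 * b * c * k w v := by
  simp only [hk.add, hk.add', hk.smul, hk.smul']
  rw [hk.symm w u, hk.symm v u, hk.symm v w]
  ring

/-- the intermediate value theorem along a path in the span of three vectors -/
lemma ivt3 (hk : Sy k) (u w v : V) {a b c : ℝ → ℝ} (ha : Continuous a) (hb : Continuous b)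
    (hc : Continuous c)
    (h0 : 0 ≤ k (a 0 • u + b 0 • w + c 0 • v) (a 0 • u + b 0 • w + c 0 • v))
    (h1 : k (a 1 • u + b 1 • w + c 1 • v) (a 1 • u + b 1 • w + c 1 • v) ≤ 0) :
    ∃ s ∈ Set.Icc (0 : ℝ) 1,
      k (a s • u + b s • w + c s • v) (a s • u + b s • w + c s • v) = 0 := by
  have hcont : Continuous fun s => k (a s • u + b s • w + c s • v) (a s • u + b s • w + c s • v) := by
    simp only [k3 hk]
    fun_prop
  have := intermediate_value_Icc' (zero_le_one (α := ℝ)) hcont.continuousOn ⟨h1, h0⟩
  obtain ⟨s, hs, hs0⟩ := this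
  exact ⟨s, hs, hs0⟩

/-- **A common null vector from two null vectors of `h` with opposite signs of `k`.** -/
lemma conic [FiniteDimensional ℝ V] (hdim : 3 ≤ Module.finrank ℝ V) (hh : Sy h) (hk : Sy k)
    {u v : V} (hu : h u u = 0) (hv : h v v = 0) (ku : 0 < k u u) (kv : k v v < 0) :
    ∃ x, x ≠ 0 ∧ h x x = 0 ∧ k x x = 0 := by
  have hu0 : u ≠ 0 := by
    rintro rfl
    rw [hk.zero] at ku
    exact lt_irrefl _ ku
  have hv0 : v ≠ 0 := by
    rintro rfl
    rw [hk.zero] at kv
    exact lt_irrefl _ kv
  by_cases huv : h u v = 0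
  · obtain ⟨s, hs, hs0⟩ := ivt3 hk u 0 v (a := fun s => 1 - s) (b := fun _ => 0) (c := fun s => s)
      (by fun_prop) (by fun_prop) (by fun_prop) (by simpa using ku.le) (by simpa using kv.le)
    refine ⟨(1 - s) • u + (0 : ℝ) • (0 : V) + s • v, fun hcon => ?_, ?_, hs0⟩
    · rw [smul_zero, add_zero] at hcon
      rcases eq_or_ne s 1 with h1 | h1
      · subst h1
        rw [sub_self, zero_smul, one_smul, zero_add] at hcon
        exact hv0 hcon
      · have h2 : u = (-s / (1 - s)) • v := by
          have h3 : (1 - s) • u = (-s) • v := by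
            rw [neg_smul]
            exact eq_neg_of_add_eq_zero_left hcon
          rw [div_eq_inv_mul, mul_smul, ← h3, smul_smul, inv_mul_cancel₀ (sub_ne_zero.2 h1.symm),
            one_smul]
        rw [h2, hk.smul, hk.smul'] at ku
        nlinarith [sq_nonneg (-s / (1 - s))]
    · rw [k3 hh, hu, hv, huv]
      simp
  · -- a vector `w` with `h u w = 0` outside the span of `u`
    obtain ⟨w, hw1, hw2⟩ : ∃ w, h u w = 0 ∧ w ∉ Submodule.span ℝ {u} := by
      by_contra hcon
      push Not at hcon
      have hle : LinearMap.ker (hh.form u) ≤ Submodule.span ℝ {u} := fun w hw => hcon w hw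
      have h1 := Submodule.finrank_mono hle
      have h2 := (hh.form u).finrank_range_add_finrank_ker
      have h3 : Module.finrank ℝ (LinearMap.range (hh.form u)) ≤ 1 := by
        refine (Submodule.finrank_le _).trans ?_
        simp
      have h4 := finrank_span_singleton (K := ℝ) hu0
      omega
    -- independence
    have hind : ∀ a b c : ℝ, a • u + b • w + c • v = 0 → b = 0 ∧ c = 0 := by
      intro a b c habc
      have h1 : h u (a • u + b • w + c • v) = 0 := by rw [habc, hh.zero']
      rw [hh.add', hh.add', hh.smul', hh.smul', hh.smul', hu, hw1] at h1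
      have hc : c = 0 := by
        have : c * h u v = 0 := by linarith
        exact (mul_eq_zero.1 this).resolve_right huv
      subst hc
      rw [zero_smul, add_zero] at habc
      refine ⟨?_, rfl⟩
      by_contra hb
      refine hw2 (Submodule.mem_span_singleton.2 ⟨-a / b, ?_⟩)
      have h2 : b • w = (-a) • u := by
        rw [neg_smul]
        exact eq_neg_of_add_eq_zero_right habc
      rw [div_eq_inv_mul, mul_smul, ← h2, smul_smul, inv_mul_cancel₀ hb, one_smul]
    have hh3 : ∀ a b c : ℝ, h (a • u + b • w + c • v) (a • u + b • w + c • v) =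
        b ^ 2 * h w w + 2 * a * c * h u v + 2 * b * c * h w v := by
      intro a b c
      rw [k3 hh, hu, hv, hw1]
      ring
    by_cases hww : h w w = 0
    · -- the plane of `u` and `w` is null for `h`
      set a0 : ℝ := -2 * h w v with ha0
      set b0 : ℝ := 2 * h u v with hb0
      have hb0' : b0 ≠ 0 := mul_ne_zero two_ne_zero huv
      have h1v : k ((0 : ℝ) • u + (0 : ℝ) • w + b0 • v) ((0 : ℝ) • u + (0 : ℝ) • w + b0 • v) < 0 := by
        rw [k3 hk]
        have : 0 < b0 ^ 2 := by positivity
        nlinarith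
      rcases le_or_gt 0 (k (a0 • u + b0 • w + (0 : ℝ) • v) (a0 • u + b0 • w + (0 : ℝ) • v)) with
        hz | hz
      · obtain ⟨s, hs, hs0⟩ := ivt3 hk u w v (a := fun s => (1 - s) * a0)
          (b := fun s => (1 - s) * b0) (c := fun s => s * b0)
          (by fun_prop) (by fun_prop) (by fun_prop) (by simpa using hz) (by
            simpa using h1v.le)
        refine ⟨_, fun hcon => ?_, ?_, hs0⟩
        · obtain ⟨q1, q2⟩ := hind _ _ _ hcon
          have q3 : 1 - s = 0 := (mul_eq_zero.1 q1).resolve_right hb0'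
          have q4 : s = 0 := (mul_eq_zero.1 q2).resolve_right hb0'
          linarith
        · rw [hh3, hww, ha0, hb0]
          ring
      · have hku : 0 < k ((1 : ℝ) • u + (0 : ℝ) • w + (0 : ℝ) • v)
            ((1 : ℝ) • u + (0 : ℝ) • w + (0 : ℝ) • v) := by
          rw [k3 hk]
          simpa using ku
        obtain ⟨s, hs, hs0⟩ := ivt3 hk u w v (a := fun s => (1 - s) + s * a0)
          (b := fun s => s * b0) (c := fun _ => 0)
          (by fun_prop) (by fun_prop) (by fun_prop) (by simpa using hku.le) (by simpa using hz.le)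
        refine ⟨_, fun hcon => ?_, ?_, hs0⟩
        · obtain ⟨q1, q2⟩ := hind _ _ _ hcon
          have q3 : s = 0 := (mul_eq_zero.1 q1).resolve_right hb0'
          subst q3
          simp only [sub_zero, zero_mul, add_zero] at hs0
          exact hku.ne' hs0
        · rw [hh3, hww]
          ring
    · set B := h u v with hB
      obtain ⟨s, hs, hs0⟩ := ivt3 hk u w v
        (a := fun s => -((1 - s) ^ 2 * h w w + 2 * s * (1 - s) * h w v))
        (b := fun s => 2 * s * B * (1 - s)) (c := fun s => 2 * s ^ 2 * B)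
        (by fun_prop) (by fun_prop) (by fun_prop)
        (by
          simp only [k3 hk]
          have : 0 ≤ (h w w) ^ 2 * k u u := by positivity
          nlinarith)
        (by
          simp only [k3 hk]
          have : (2 * B) ^ 2 * k v v ≤ 0 := mul_nonpos_of_nonneg_of_nonpos (sq_nonneg _) kv.le
          nlinarith)
      refine ⟨_, fun hcon => ?_, ?_, hs0⟩
      · obtain ⟨-, q2⟩ := hind _ _ _ hcon
        have q3 : s = 0 := by
          by_contra hne
          exact (mul_ne_zero (mul_ne_zero two_ne_zero (pow_ne_zero 2 hne)) huv) q2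
        subst q3
        simp only [k3 hk] at hs0
        have : 0 < (h w w) ^ 2 * k u u := by positivity
        nlinarith
      · rw [hh3]
        ring

/-- **Two quadratic forms without a common zero in dimension at least three have a positive
definite linear combination.** -/
theorem dich [FiniteDimensional ℝ V] (hdim : 3 ≤ Module.finrank ℝ V) (hh : Sy h) (hk : Sy k)
    (hnull : ∀ x, x ≠ 0 → h x x = 0 → k x x ≠ 0) :
    ∃ p q : ℝ, ∀ x, x ≠ 0 → 0 < p * h x x + q * k x x := by
  classical
  set n := Module.finrank ℝ V with hn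
  set b : Module.Basis (Fin n) ℝ V := Module.finBasis ℝ V with hb
  let J : EuclideanSpace ℝ (Fin n) → V := fun z => ∑ i, z i • b i
  have hJc : ∀ {g : V → V → ℝ}, Sy g → Continuous fun z : EuclideanSpace ℝ (Fin n) => g (J z) (J z) := by
    intro g hg
    have e : ∀ z : EuclideanSpace ℝ (Fin n), g (J z) (J z) = ∑ i, ∑ j, z i * (z j * g (b j) (b i)) := by
      intro z
      simp only [J]
      rw [hg.sum]
      refine Finset.sum_congr rfl fun i _ => ?_
      rw [hg.symm, hg.sum]
      refine Finset.sum_congr rfl fun j _ => ?_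
      rw [hg.smul, hg.smul']
      ring
    simp only [e]
    fun_prop
  have hJ0 : ∀ z : EuclideanSpace ℝ (Fin n), z ≠ 0 → J z ≠ 0 := by
    intro z hz hcon
    apply hz
    have h1 := Fintype.linearIndependent_iff.1 b.linearIndependent (fun i => z i) hcon
    exact (WithLp.ofLp_injective 2) (funext h1)
  have hJs : ∀ x : V, ∃ z : EuclideanSpace ℝ (Fin n), J z = x := fun x =>
    ⟨WithLp.toLp 2 (b.repr x), by simpa [J] using b.sum_repr x⟩
  have hJm : ∀ (t : ℝ) (z : EuclideanSpace ℝ (Fin n)), J (t • z) = t • J z := by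
    intro t z
    simp only [J, Finset.smul_sum]
    refine Finset.sum_congr rfl fun i _ => ?_
    rw [smul_smul]
    rfl
  set S : Set (EuclideanSpace ℝ (Fin n)) := Metric.sphere 0 1 with hS
  set φ : EuclideanSpace ℝ (Fin n) → ℝ × ℝ := fun z => (h (J z) (J z), k (J z) (J z)) with hφ
  have hφc : Continuous φ := (hJc hh).prodMk (hJc hk)
  have hcomp : IsCompact (convexHull ℝ (φ '' S)) :=
    compact_conv ((isCompact_sphere _ _).image hφc)
  by_cases h0 : (0 : ℝ × ℝ) ∈ convexHull ℝ (φ '' S)
  · exfalso
    obtain ⟨ι, hι, w, z, hw0, hw1, hz, hzx⟩ := mem_convexHull_iff_exists_fintype.1 h0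
    choose x hxS hxz using hz
    have hx0 : ∀ i, x i ≠ 0 := fun i hcon => by
      have := hxS i
      rw [hcon, hS] at this
      simp at this
    set y : ι → V := fun i => Real.sqrt (w i) • J (x i) with hy
    have hgen : ∀ {g : V → V → ℝ}, Sy g → ∀ i, g (y i) (y i) = w i * g (J (x i)) (J (x i)) := by
      intro g hg i
      rw [hy]
      simp only [hg.smul, hg.smul']
      rw [← mul_assoc, Real.mul_self_sqrt (hw0 i)]
    have hsh : ∑ i, h (y i) (y i) = 0 := by
      have h1 := congrArg Prod.fst hzx
      rw [Prod.fst_sum, Prod.fst_zero] at h1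
      rw [← h1]
      refine Finset.sum_congr rfl fun i _ => ?_
      rw [hgen hh, ← hxz i]
      rfl
    have hsk : ∑ i, k (y i) (y i) = 0 := by
      have h1 := congrArg Prod.snd hzx
      rw [Prod.snd_sum, Prod.snd_zero] at h1
      rw [← h1]
      refine Finset.sum_congr rfl fun i _ => ?_
      rw [hgen hk, ← hxz i]
      rfl
    have hyne : ∃ i, y i ≠ 0 := by
      by_contra hcon
      push Not at hcon
      have : ∀ i, w i = 0 := by
        intro i
        have h1 := hcon i
        rw [hy] at h1
        have h2 := (smul_eq_zero.1 h1).resolve_right (hJ0 _ (hx0 i))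
        exact (Real.sqrt_eq_zero (hw0 i)).1 h2
      simp [this] at hw1
    obtain ⟨y', h1, h2, h3⟩ := rot hh hk (Fintype.card ι) y
      ⟨Finset.univ, le_rfl, fun i hi => absurd (Finset.mem_univ i) hi⟩ hsh
    obtain ⟨i, hi⟩ := h3 hyne
    have hki : k (y' i) (y' i) ≠ 0 := hnull _ hi (h1 i)
    rw [hsk] at h2
    obtain ⟨p, -, hp⟩ := Finset.exists_pos_of_sum_zero_of_exists_nonzero _ h2
      ⟨i, Finset.mem_univ i, hki⟩
    obtain ⟨q, -, hq⟩ := Finset.exists_pos_of_sum_zero_of_exists_nonzero
      (s := Finset.univ) (fun i => -k (y' i) (y' i)) (by rw [Finset.sum_neg_distrib, h2, neg_zero])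
      ⟨i, Finset.mem_univ i, neg_ne_zero.2 hki⟩
    obtain ⟨x, hx1, hx2, hx3⟩ := conic hdim hh hk (h1 p) (h1 q) hp (by linarith)
    exact hnull x hx1 hx2 hx3
  · obtain ⟨f, c, hf0, hfc⟩ := geometric_hahn_banach_point_closed (convex_convexHull ℝ _)
      hcomp.isClosed h0
    rw [map_zero] at hf0
    refine ⟨f (1, 0), f (0, 1), fun x hx => ?_⟩
    obtain ⟨z, rfl⟩ := hJs x
    have hz : z ≠ 0 := by
      rintro rfl
      apply hx
      simp [J]
    have hzn : 0 < ‖z‖ := norm_pos_iff.2 hz
    set z1 : EuclideanSpace ℝ (Fin n) := ‖z‖⁻¹ • z with hz1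
    have hz1S : z1 ∈ S := by
      rw [hS, mem_sphere_zero_iff_norm, hz1, norm_smul, norm_inv, norm_norm,
        inv_mul_cancel₀ hzn.ne']
    have h1 := hfc (φ z1) (subset_convexHull ℝ _ ⟨z1, hz1S, rfl⟩)
    have h2 : f (φ z1) = ‖z‖⁻¹ ^ 2 * (f (1, 0) * h (J z) (J z) + f (0, 1) * k (J z) (J z)) := by
      have e1 : φ z1 = (h (J z1) (J z1)) • ((1 : ℝ), (0 : ℝ)) + (k (J z1) (J z1)) • ((0 : ℝ), (1 : ℝ)) := by
        simp [hφ]
      rw [e1, map_add, map_smul, map_smul, hz1, hJm, hh.smul, hh.smul', hk.smul, hk.smul',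
        smul_eq_mul, smul_eq_mul]
      ring
    rw [h2] at h1
    have h3 : 0 < ‖z‖⁻¹ ^ 2 * (f (1, 0) * h (J z) (J z) + f (0, 1) * k (J z) (J z)) := by linarith
    exact (mul_pos_iff_of_pos_left (by positivity)).1 h3

end Pool.Agent.V11287.KN
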