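import Pool.Agent.V11287.KN.Alg

set_option autoImplicit false

/-!
The case of a common null vector, the diagonal case and the case of dimension at most two.
-/

namespace Pool.Agent.V11287.KN

open Finset

variable {V : Type*} [AddCommGroup V] [Module ℝ V] {h k : V → V → ℝ}

lemma lin_zero {A B : ℝ} (hAB : ∀ s : ℝ, 2 * s * A + B ≤ 0) : A = 0 := by
  by_contra hA
  have h1 := hAB ((1 - B) / (2 * A))
  have h2 : 2 * ((1 - B) / (2 * A)) * A = 1 - B := by field_simp
  linarith

lemma lin_zero' {A B : ℝ} (hAB : ∀ s : ℝ, 0 ≤ B + s * A) : A = 0 := by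
  by_contra hA
  have h1 := hAB ((-1 - B) / A)
  have h2 : (-1 - B) / A * A = -1 - B := by field_simp
  linarith

section null

variable (hh : Sy h) (hk : Sy k) (hsec : ∀ x y, kn h k x y x y ≤ 0)
include hh hk hsec

/-- the sign at a common null vector -/
lemma null_prod {x : V} (hx1 : h x x = 0) (hx2 : k x x = 0) (y : V) : 0 ≤ h x y * k x y := by
  have h1 := hsec x y
  unfold kn at h1
  rw [hx1, hx2, hh.symm y x, hk.symm y x] at h1
  linarith

/-- the first variation at a common null vector -/
lemma null_var {x : V} (hx1 : h x x = 0) (hx2 : k x x = 0) {w : V} (hw : h x w * k x w = 0)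
    (v : V) : h w w * k x v + h x v * k w w - h w v * k x w - h x w * k w v = 0 := by
  refine lin_zero (B := kn h k w v w v) fun s => ?_
  have h1 := hsec w (s • x + v)
  have e : kn h k w (s • x + v) w (s • x + v) =
      2 * s * (h w w * k x v + h x v * k w w - h w v * k x w - h x w * k w v) +
        kn h k w v w v - 2 * s ^ 2 * (h x w * k x w) + s ^ 2 * (h w w * k x x + h x x * k w w) := by
    unfold kn
    simp only [hh.add, hh.add', hh.smul, hh.smul', hk.add, hk.add', hk.smul, hk.smul']
    rw [hh.symm w x, hk.symm w x, hh.symm v w, hk.symm v w, hh.symm v x, hk.symm v x]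
    ring
  rw [e, hw, hx1, hx2] at h1
  linarith

/-- the case `h x = k x` -/
lemma null_eq [FiniteDimensional ℝ V] {x f : V} (hx1 : h x x = 0) (he : ∀ y, k x y = h x y)
    (hf : h x f = 1) : NegSq (kn h k) := by
  have hx2 : k x x = 0 := by rw [he, hx1]
  have hsum : Sy (fun a b => 1 * h a b + 1 * k a b) := hh.lin hk 1 1
  set g : V → V → ℝ := fun a b => 1 * h a b + 1 * k a b with hg
  have hg0 : ∀ w, h x w = 0 → g w w = 0 := by
    intro w hw
    have h1 := null_var hh hk hsec hx1 hx2 (w := w) (by rw [hw, zero_mul]) f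
    rw [he w, he f, hw, hf] at h1
    simp only [hg]
    linarith
  have hg1 : ∀ a b, h x a = 0 → h x b = 0 → g a b = 0 := by
    intro a b ha hb
    have h1 := hg0 (a + b) (by rw [hh.add', ha, hb, add_zero])
    rw [hsum.add, hsum.add', hsum.add', hg0 a ha, hg0 b hb, hsum.symm b a] at h1
    linarith
  set μ : V →ₗ[ℝ] ℝ := hsum.form f - (g f f / 2) • hh.form x with hμ
  have hμa : ∀ b, μ b = g f b - g f f / 2 * h x b := by
    intro b
    simp only [hμ, LinearMap.sub_apply, LinearMap.smul_apply, Sy.form_apply, smul_eq_mul]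
  have hgμ : ∀ a b, g a b = h x a * μ b + h x b * μ a := by
    intro a b
    have h1 := hg1 (a - h x a • f) (b - h x b • f)
      (by rw [hh.sub', hh.smul', hf]; ring) (by rw [hh.sub', hh.smul', hf]; ring)
    rw [hsum.sub, hsum.sub', hsum.sub', hsum.smul, hsum.smul', hsum.smul, hsum.smul'] at h1
    rw [hμa, hμa]
    have h2 := hsum.symm a f
    change g a f = g f a at h2
    rw [h2] at h1
    linarith
  have hμx : μ x = 2 := by
    rw [hμa, hx1]
    simp only [hg]
    rw [hh.symm f x, hk.symm f x, he, hf]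
    norm_num
  have hh2 : Sy (fun a b => (1 / 2) * h a b + (-1 / 2) * k a b) := hh.lin hk _ _
  set h₂ : V → V → ℝ := fun a b => (1 / 2) * h a b + (-1 / 2) * k a b with hh₂
  have e1 : ∀ a b, h a b = (h x a * μ b + h x b * μ a) / 2 + h₂ a b := by
    intro a b
    rw [← hgμ]
    simp only [hg, hh₂]
    ring
  have e2 : ∀ a b, k a b = (h x a * μ b + h x b * μ a) / 2 - h₂ a b := by
    intro a b
    rw [← hgμ]
    simp only [hg, hh₂]
    ring
  set α : V → ℝ := h x with hα
  have key : ∀ a b c d, kn h k a b c d = -(1 / 2) * sq α μ a b c d - kn h₂ h₂ a b c d := by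
    intro a b c d
    unfold kn sq
    rw [e1 a c, e1 b d, e1 a d, e1 b c, e2 b d, e2 a c, e2 b c, e2 a d]
    ring
  have hx₂ : ∀ y, h₂ x y = 0 := by
    intro y
    simp only [hh₂, he]
    ring
  have hshift : ∀ (s : ℝ) w v, kn h₂ h₂ w (v + s • x) w (v + s • x) = kn h₂ h₂ w v w v := by
    intro s w v
    have i1 : h₂ w (v + s • x) = h₂ w v := by
      rw [hh2.symm w (v + s • x), hh2.add, hh2.smul]
      change h₂ v w + s * h₂ x w = _
      rw [hx₂, mul_zero, add_zero]
      exact hh2.symm v w
    have i2 : h₂ (v + s • x) w = h₂ v w := by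
      rw [hh2.add, hh2.smul]
      change h₂ v w + s * h₂ x w = _
      rw [hx₂, mul_zero, add_zero]
    have i3 : h₂ (v + s • x) (v + s • x) = h₂ v v := by
      rw [hh2.add, hh2.add', hh2.smul, hh2.smul', hh2.add']
      change h₂ v v + s * h₂ v x + s * (h₂ x v + h₂ x (s • x)) = _
      rw [hx₂, hx₂, hh2.symm v x]
      change h₂ v v + s * h₂ x v + _ = _
      rw [hx₂]
      ring
    unfold kn
    rw [i1, i2, i3]
  have hpos1 : ∀ w v, α w ≠ 0 → 0 ≤ kn h₂ h₂ w v w v := by
    intro w v hw
    have h1 := hsec w (v + ((α v * μ w - α w * μ v) / (2 * α w)) • x)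
    rw [key, hshift] at h1
    have h2 : sq α μ w (v + ((α v * μ w - α w * μ v) / (2 * α w)) • x) w
        (v + ((α v * μ w - α w * μ v) / (2 * α w)) • x) = 0 := by
      have h3 : α (v + ((α v * μ w - α w * μ v) / (2 * α w)) • x) = α v := by
        have h5 := hh.add' x v (((α v * μ w - α w * μ v) / (2 * α w)) • x)
        have h6 := hh.smul' ((α v * μ w - α w * μ v) / (2 * α w)) x x
        have h7 : h x x = 0 := hx1
        change h x _ = h x v
        rw [h5, h6, h7, mul_zero, add_zero]
      unfold sq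
      rw [h3, map_add, map_smul, hμx, smul_eq_mul]
      have h4 : α w * (μ v + (α v * μ w - α w * μ v) / (2 * α w) * 2) - α v * μ w = 0 := by
        field_simp
        ring
      rw [h4, zero_mul]
    rw [h2] at h1
    linarith
  have hsw : ∀ w v, kn h₂ h₂ w v w v = kn h₂ h₂ v w v w := by
    intro w v
    unfold kn
    ring
  have hpos : ∀ w v, 0 ≤ kn h₂ h₂ w v w v := by
    intro w v
    by_cases hw : α w = 0
    · by_cases hv : α v = 0
      · have h1 := hsec w v
        rw [key] at h1
        have h2 : sq α μ w v w v = 0 := by unfold sq; rw [hw, hv]; ring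
        rw [h2] at h1
        linarith
      · rw [hsw]
        exact hpos1 v w hv
    · exact hpos1 w v hw
  have hdef : (∀ w, 0 ≤ h₂ w w) ∨ (∀ w, 0 ≤ -h₂ w w) := by
    by_contra hcon
    push Not at hcon
    obtain ⟨⟨w, hw⟩, v, hv⟩ := hcon
    have h1 := hpos w v
    unfold kn at h1
    have h2 := hh2.symm v w
    change h₂ v w = h₂ w v at h2
    rw [h2] at h1
    nlinarith [sq_nonneg (h₂ w v)]
  have hsq2 : NegSq (fun a b c d => -kn h₂ h₂ a b c d) := by
    rcases hdef with hd | hd
    · obtain ⟨n, ξ, lam, hl, hsum⟩ := psd_sum hh2 hd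
      refine NegSq.of_fintype (ι := Fin n × Fin n) (fun i => lam i.1 * lam i.2)
        (fun i => mul_nonneg (hl _) (hl _)) (fun i => ξ i.1) (fun i => ξ i.2) fun a b c d => ?_
      rw [kn_diag (fun i => (ξ i : V → ℝ)) lam lam hsum hsum, Fintype.sum_prod_type]
    · have hneg : Sy (fun a b => (-1) * h₂ a b + 0 * h₂ a b) := hh2.lin hh2 _ _
      obtain ⟨n, ξ, lam, hl, hsum⟩ := psd_sum hneg (fun w => by
        have := hd w
        linarith)
      refine NegSq.of_fintype (ι := Fin n × Fin n) (fun i => lam i.1 * lam i.2)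
        (fun i => mul_nonneg (hl _) (hl _)) (fun i => ξ i.1) (fun i => ξ i.2) fun a b c d => ?_
      have e3 := kn_diag (fun i => (ξ i : V → ℝ)) lam lam hsum hsum a b c d
      have e4 : kn (fun a b => (-1) * h₂ a b + 0 * h₂ a b) (fun a b => (-1) * h₂ a b + 0 * h₂ a b)
          a b c d = kn h₂ h₂ a b c d := by unfold kn; ring
      rw [e4] at e3
      rw [e3, Fintype.sum_prod_type]
  have hsq1 : NegSq (fun a b c d => -(1 / 2) * sq α μ a b c d) := by
    refine NegSq.of_fintype (ι := Unit) (fun _ => 1 / 2) (fun _ => by norm_num)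
      (fun _ => hh.form x) (fun _ => μ) fun a b c d => ?_
    simp only [Finset.univ_unique, Finset.sum_singleton]
    change _ = -(1 / 2 * sq α μ a b c d)
    ring
  exact hsq1.add hsq2 fun a b c d => by rw [key]; ring

/-- the case `k x = 0` -/
lemma null_zero [FiniteDimensional ℝ V] {x f : V} (hx1 : h x x = 0) (he : ∀ y, k x y = 0)
    (hf : h x f = 1) : NegSq (kn h k) := by
  have hvar : ∀ w v, h x v * k w w = h x w * k w v := by
    intro w v
    have h1 := null_var hh hk hsec hx1 (he x) (w := w) (by rw [he, mul_zero]) v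
    rw [he v, he w] at h1
    linarith
  set c := k f f with hc
  have hk1 : ∀ w, k w f = h x w * c := by
    intro w
    have h1 := hvar f w
    rw [hf, one_mul, hk.symm f w] at h1
    exact h1.symm
  have hk2 : ∀ w, k w w = c * (h x w * h x w) := by
    intro w
    have h1 := hvar w f
    rw [hf, one_mul, hk1] at h1
    rw [h1]
    ring
  have hSα : Sy (fun a b => c * (h x a * h x b)) := by
    refine ⟨fun a a' b => ?_, fun t a b => ?_, fun a b => ?_⟩
    · rw [hh.add']; ring
    · rw [hh.smul']; ring
    · ring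
  have hk3 : ∀ a b, k a b = c * (h x a * h x b) := hk.polar hSα hk2
  have hneg : ∀ u, h x u = 0 → c * h u u ≤ 0 := by
    intro u hu
    have h1 := hsec f u
    unfold kn at h1
    rw [hk3 u u, hk3 f f, hk3 f u, hk3 u f, hu, hf] at h1
    linarith
  let P : V →ₗ[ℝ] V := LinearMap.id - (hh.form x).smulRight f
  have hP : ∀ a, P a = a - h x a • f := fun a => rfl
  have hαP : ∀ a, h x (P a) = 0 := by
    intro a
    rw [hP, hh.sub', hh.smul', hf]
    ring
  have hg : Sy (fun a b => -c * h (P a) (P b)) := by
    refine ⟨fun a a' b => ?_, fun t a b => ?_, fun a b => ?_⟩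
    · rw [map_add, hh.add]; ring
    · rw [map_smul, hh.smul]; ring
    · rw [hh.symm (P a)]
  obtain ⟨n, ξ, lam, hl, hsum⟩ := psd_sum hg (fun a => by
    have := hneg (P a) (hαP a)
    linarith)
  refine NegSq.of_fintype lam hl ξ (fun _ => hh.form x) fun a b c' d => ?_
  have e0 : ∀ a b, h a b = h (P a) (P b) + h x a * h f b + h x b * h a f -
      h x a * h x b * h f f := by
    intro a b
    rw [hP, hP, hh.sub, hh.sub', hh.sub', hh.smul, hh.smul', hh.smul, hh.smul']
    ring
  have e1 : ∑ i, lam i * sq (ξ i) (hh.form x) a b c' d =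
      (∑ i, lam i * (ξ i a * ξ i c')) * (h x b * h x d) -
      (∑ i, lam i * (ξ i a * ξ i d)) * (h x b * h x c') -
      (∑ i, lam i * (ξ i b * ξ i c')) * (h x a * h x d) +
      (∑ i, lam i * (ξ i b * ξ i d)) * (h x a * h x c') := by
    rw [Finset.sum_mul, Finset.sum_mul, Finset.sum_mul, Finset.sum_mul,
      ← Finset.sum_sub_distrib, ← Finset.sum_sub_distrib, ← Finset.sum_add_distrib]
    refine Finset.sum_congr rfl fun i _ => ?_
    unfold sq
    simp only [Sy.form_apply]
    ring
  rw [e1, ← hsum a c', ← hsum a d, ← hsum b c', ← hsum b d]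
  unfold kn
  rw [hk3 b d, hk3 a c', hk3 b c', hk3 a d, e0 a c', e0 b d, e0 a d, e0 b c']
  have s1 := hh.symm a f
  have s2 := hh.symm b f
  rw [s1, s2]
  ring

/-- **The case of a common null vector which is not in the common kernel.** -/
theorem null_case [FiniteDimensional ℝ V] {x : V} (hx1 : h x x = 0) (hx2 : k x x = 0)
    (hne : ∃ y, h x y ≠ 0 ∨ k x y ≠ 0) : NegSq (kn h k) := by
  have hprod := null_prod hh hk hsec hx1 hx2
  have hsec' : ∀ x y, kn k h x y x y ≤ 0 := fun x y => by rw [kn_comm]; exact hsec x y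
  have norm1 : ∀ {g : V → V → ℝ}, Sy g → ∀ y, g x y ≠ 0 → g x ((g x y)⁻¹ • y) = 1 := by
    intro g hg y hy
    rw [hg.smul', inv_mul_cancel₀ hy]
  by_cases hA : ∃ y, h x y ≠ 0
  · obtain ⟨y0, hy0⟩ := hA
    set f := (h x y0)⁻¹ • y0 with hf
    have hf1 : h x f = 1 := norm1 hh y0 hy0
    by_cases hB : ∃ z, k x z ≠ 0
    · have hker : ∀ y, h x y = 0 → k x y = 0 := by
        intro y hy
        have h1 : ∀ s : ℝ, 0 ≤ k x f + s * k x y := by
          intro s
          have h2 := hprod (f + s • y)
          have h3 : h x (f + s • y) = 1 := by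
            rw [hh.add' x f, hh.smul' s x y, hy, mul_zero, add_zero, hf1]
          rw [h3, one_mul, hk.add' x f, hk.smul' s x y] at h2
          exact h2
        exact lin_zero' h1
      set c := k x f with hc
      have hkc : ∀ y, k x y = c * h x y := by
        intro y
        have h1 := hker (y - h x y • f) (by rw [hh.sub', hh.smul', hf1]; ring)
        rw [hk.sub', hk.smul'] at h1
        linarith
      have hc0 : 0 ≤ c := by
        have := hprod f
        rwa [hf1, one_mul] at this
      have hcne : c ≠ 0 := by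
        intro h0
        obtain ⟨z, hz⟩ := hB
        exact hz (by rw [hkc, h0, zero_mul])
      have hcpos : 0 < c := lt_of_le_of_ne hc0 (Ne.symm hcne)
      have hk' : Sy (fun a b => c⁻¹ * k a b + 0 * k a b) := hk.lin hk _ _
      have hres := null_eq hh hk' (x := x) (f := f) (fun a b => by
        have e : kn h (fun a b => c⁻¹ * k a b + 0 * k a b) a b a b = c⁻¹ * kn h k a b a b := by
          unfold kn; ring
        rw [e]
        exact mul_nonpos_of_nonneg_of_nonpos (by positivity) (hsec a b)) hx1
        (fun y => by rw [hkc]; field_simp; ring) hf1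
      refine hres.smul hc0 fun a b c' d => ?_
      unfold kn
      field_simp
      ring
    · push Not at hB
      exact null_zero hh hk hsec hx1 hB hf1
  · push Not at hA
    obtain ⟨y, hy⟩ := hne
    have hy' : k x y ≠ 0 := by
      rcases hy with hy | hy
      · exact absurd (hA y) hy
      · exact hy
    exact (null_zero hk hh hsec' hx2 hA (norm1 hk y hy')).congr fun a b c d => kn_comm _ _ _ _ _ _

end null

end Pool.Agent.V11287.KN
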