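import Pool.Agent.V11287.KN.Dich
import Pool.Agent.V11287.KN.Null

set_option autoImplicit false

/-!
Curvature tensors in the quadratic span of two symmetric bilinear forms.
-/

namespace Pool.Agent.V11287.KN

open Finset

variable {V : Type*} [AddCommGroup V] [Module ℝ V] {h k : V → V → ℝ}

/-- the quadratic span of two forms -/
def qf (α β γ : ℝ) (h k : V → V → ℝ) (a b c d : V) : ℝ :=
  α * kn h h a b c d + 2 * β * kn h k a b c d + γ * kn k k a b c d

lemma diag_case {n : ℕ} {ξ : Fin n → V →ₗ[ℝ] ℝ} {f : Fin n → V}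
    (hdual : ∀ i j, ξ i (f j) = if i = j then 1 else 0) {u v : Fin n → ℝ}
    (hh : ∀ x y, h x y = ∑ i, u i * (ξ i x * ξ i y))
    (hk : ∀ x y, k x y = ∑ i, v i * (ξ i x * ξ i y)) {α β γ : ℝ}
    (hsec : ∀ x y, qf α β γ h k x y x y ≤ 0) : NegSq (qf α β γ h k) := by
  classical
  have hval : ∀ {g : V → V → ℝ} {w : Fin n → ℝ}, (∀ x y, g x y = ∑ i, w i * (ξ i x * ξ i y)) →
      ∀ i j, g (f i) (f j) = if i = j then w i else 0 := by
    intro g w hg i j
    rw [hg, Finset.sum_eq_single i]
    · rw [hdual, hdual, if_pos rfl]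
      by_cases hij : i = j
      · rw [if_pos hij, if_pos hij]; ring
      · rw [if_neg hij, if_neg hij]; ring
    · intro l _ hl
      rw [hdual l i, if_neg hl]
      ring
    · intro hi
      exact absurd (Finset.mem_univ i) hi
  have hhf := hval hh
  have hkf := hval hk
  set w : Fin n → Fin n → ℝ := fun i j =>
    α * (u i * u j) + β * (u i * v j + u j * v i) + γ * (v i * v j) with hw
  have hwn : ∀ i j, i ≠ j → w i j ≤ 0 := by
    intro i j hij
    have h1 := hsec (f i) (f j)
    unfold qf kn at h1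
    rw [hhf i i, hhf j j, hhf i j, hhf j i, hkf i i, hkf j j, hkf i j, hkf j i, if_pos rfl,
      if_pos rfl, if_neg hij, if_neg hij.symm, if_pos rfl, if_pos rfl, if_neg hij,
      if_neg hij.symm] at h1
    simp only [hw]
    nlinarith
  refine NegSq.of_fintype (ι := Fin n × Fin n) (fun p => if p.1 = p.2 then 0 else -w p.1 p.2)
    (fun p => by
      by_cases hp : p.1 = p.2
      · simp only [if_pos hp]; exact le_rfl
      · simp only [if_neg hp]
        have := hwn _ _ hp
        linarith) (fun p => ξ p.1) (fun p => ξ p.2) fun a b c d => ?_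
  have hsym : ∀ i j, sq (ξ i) (ξ j) a b c d = sq (ξ j) (ξ i) a b c d := by
    intro i j
    unfold sq
    ring
  have hswap : ∑ i, ∑ j, u i * v j * sq (ξ i) (ξ j) a b c d =
      ∑ i, ∑ j, u j * v i * sq (ξ i) (ξ j) a b c d := by
    rw [Finset.sum_comm]
    refine Finset.sum_congr rfl fun i _ => Finset.sum_congr rfl fun j _ => ?_
    rw [hsym]
  have e1 : qf α β γ h k a b c d = ∑ i, ∑ j, w i j * sq (ξ i) (ξ j) a b c d := by
    have e2 : ∑ i, ∑ j, w i j * sq (ξ i) (ξ j) a b c d =
        α * ∑ i, ∑ j, u i * u j * sq (ξ i) (ξ j) a b c d +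
        β * (∑ i, ∑ j, u i * v j * sq (ξ i) (ξ j) a b c d +
          ∑ i, ∑ j, u j * v i * sq (ξ i) (ξ j) a b c d) +
        γ * ∑ i, ∑ j, v i * v j * sq (ξ i) (ξ j) a b c d := by
      simp only [Finset.mul_sum, ← Finset.sum_add_distrib]
      refine Finset.sum_congr rfl fun i _ => Finset.sum_congr rfl fun j _ => ?_
      simp only [hw]
      ring
    rw [e2, ← hswap]
    unfold qf
    rw [kn_diag (fun i => (ξ i : V → ℝ)) u u hh hh, kn_diag (fun i => (ξ i : V → ℝ)) u v hh hk,
      kn_diag (fun i => (ξ i : V → ℝ)) v v hk hk]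
    ring
  rw [e1, Fintype.sum_prod_type, ← Finset.sum_neg_distrib]
  refine Finset.sum_congr rfl fun i _ => ?_
  rw [← Finset.sum_neg_distrib]
  refine Finset.sum_congr rfl fun j _ => ?_
  by_cases hij : i = j
  · subst hij
    have : sq (ξ i) (ξ i) a b c d = 0 := by unfold sq; ring
    simp [this]
  · simp only [if_neg hij]
    ring

/-- the case of a positive definite combination -/
lemma def_case [FiniteDimensional ℝ V] (hh : Sy h) (hk : Sy k) {p q : ℝ}
    (hpos : ∀ x, x ≠ 0 → 0 < p * h x x + q * k x x) {α β γ : ℝ}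
    (hsec : ∀ x y, qf α β γ h k x y x y ≤ 0) : NegSq (qf α β γ h k) := by
  have hF : Sy (fun x y => p * h x y + q * k x y) := hh.lin hk p q
  by_cases hq : q = 0
  · by_cases hp : p = 0
    · have hx : ∀ x : V, x = 0 := by
        intro x
        by_contra hx
        have := hpos x hx
        rw [hp, hq] at this
        simp at this
      refine NegSq.zero fun a b c d => ?_
      rw [hx a, hx b, hx c, hx d]
      unfold qf kn
      rw [hh.zero, hk.zero]
      ring
    · obtain ⟨n, v, lam, h1, h2, h3⟩ := diag hF hpos hk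
      refine diag_case (ξ := fun i => hF.form (v i)) (f := v) (u := fun _ => p⁻¹) (v := lam)
        (fun i j => h1 i j) (fun x y => ?_) h3 hsec
      have h4 := h2 x y
      simp only [hq, zero_mul, add_zero] at h4
      simp only [Sy.form_apply, hq, zero_mul, add_zero]
      rw [← Finset.mul_sum]
      rw [← Finset.mul_sum, one_mul] at h4
      rw [← h4]
      field_simp
  · obtain ⟨n, v, lam, h1, h2, h3⟩ := diag hF hpos hh
    refine diag_case (ξ := fun i => hF.form (v i)) (f := v) (u := lam)
      (v := fun i => (1 - p * lam i) / q) (fun i j => h1 i j) h3 (fun x y => ?_) hsec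
    have h4 := h2 x y
    have h5 := h3 x y
    have e : ∑ i, (1 - p * lam i) / q * (hF.form (v i) x * hF.form (v i) y) =
        q⁻¹ * (∑ i, 1 * (hF.form (v i) x * hF.form (v i) y) -
          p * ∑ i, lam i * (hF.form (v i) x * hF.form (v i) y)) := by
      have e3 : p * ∑ i, lam i * (hF.form (v i) x * hF.form (v i) y) =
          ∑ i, p * (lam i * (hF.form (v i) x * hF.form (v i) y)) := Finset.mul_sum _ _ _
      rw [e3, ← Finset.sum_sub_distrib, Finset.mul_sum]
      refine Finset.sum_congr rfl fun i _ => ?_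
      field_simp
    rw [e]
    simp only [Sy.form_apply]
    rw [← h4, ← h5]
    field_simp
    ring

/-- dimension at most two -/
lemma low_case [FiniteDimensional ℝ V] (hn : Module.finrank ℝ V ≤ 2) (hh : Sy h) (hk : Sy k)
    {α β γ : ℝ} (hsec : ∀ x y, qf α β γ h k x y x y ≤ 0) : NegSq (qf α β γ h k) := by
  classical
  obtain ⟨ξ1, ξ2, e1, e2, he⟩ : ∃ (ξ1 ξ2 : V →ₗ[ℝ] ℝ) (e1 e2 : V),
      ∀ x, x = ξ1 x • e1 + ξ2 x • e2 := by
    have hcases : Module.finrank ℝ V = 0 ∨ Module.finrank ℝ V = 1 ∨ Module.finrank ℝ V = 2 := by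
      omega
    rcases hcases with h0 | h0 | h0
    · have b : Module.Basis (Fin 0) ℝ V := Module.finBasisOfFinrankEq ℝ V h0
      refine ⟨0, 0, 0, 0, fun x => ?_⟩
      have := b.sum_repr x
      rw [Fin.sum_univ_zero] at this
      rw [← this]
      simp
    · have b : Module.Basis (Fin 1) ℝ V := Module.finBasisOfFinrankEq ℝ V h0
      refine ⟨b.coord 0, 0, b 0, 0, fun x => ?_⟩
      have := b.sum_repr x
      rw [Fin.sum_univ_one] at this
      conv_lhs => rw [← this]
      simp
    · have b : Module.Basis (Fin 2) ℝ V := Module.finBasisOfFinrankEq ℝ V h0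
      refine ⟨b.coord 0, b.coord 1, b 0, b 1, fun x => ?_⟩
      have := b.sum_repr x
      rw [Fin.sum_univ_two] at this
      conv_lhs => rw [← this]
      simp
  have hexp : ∀ {g : V → V → ℝ}, Sy g → ∀ x y, g x y = ξ1 x * ξ1 y * g e1 e1 +
      (ξ1 x * ξ2 y + ξ2 x * ξ1 y) * g e1 e2 + ξ2 x * ξ2 y * g e2 e2 := by
    intro g hg x y
    conv_lhs => rw [he x, he y]
    simp only [hg.add, hg.add', hg.smul, hg.smul']
    rw [hg.symm e2 e1]
    ring
  refine NegSq.of_fintype (ι := Unit) (fun _ => -qf α β γ h k e1 e2 e1 e2)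
    (fun _ => by have := hsec e1 e2; linarith) (fun _ => ξ1) (fun _ => ξ2) fun a b c d => ?_
  simp only [Finset.univ_unique, Finset.sum_singleton]
  unfold qf kn sq
  rw [hexp hh a c, hexp hh b d, hexp hh a d, hexp hh b c, hexp hk a c, hexp hk b d,
    hexp hk a d, hexp hk b c, hh.symm e2 e1, hk.symm e2 e1]
  ring

lemma qf_kn (h k : V → V → ℝ) (a b c d : V) : qf 0 (1 / 2) 0 h k a b c d = kn h k a b c d := by
  unfold qf
  ring

/-- trivial common kernel, one product -/
lemma core_kn [FiniteDimensional ℝ V] (hh : Sy h) (hk : Sy k)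
    (hsec : ∀ x y, kn h k x y x y ≤ 0)
    (htriv : ∀ x, (∀ y, h x y = 0) → (∀ y, k x y = 0) → x = 0) : NegSq (kn h k) := by
  by_cases hnull : ∃ x, x ≠ 0 ∧ h x x = 0 ∧ k x x = 0
  · obtain ⟨x, hx, hx1, hx2⟩ := hnull
    refine null_case hh hk hsec hx1 hx2 ?_
    by_contra hcon
    push Not at hcon
    exact hx (htriv x (fun y => (hcon y).1) fun y => (hcon y).2)
  · push Not at hnull
    have hsec' : ∀ x y, qf 0 (1 / 2) 0 h k x y x y ≤ 0 := fun x y => by
      rw [qf_kn]; exact hsec x y
    have key : NegSq (qf 0 (1 / 2) 0 h k) := by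
      rcases le_or_gt (Module.finrank ℝ V) 2 with hn | hn
      · exact low_case hn hh hk hsec'
      · obtain ⟨p, q, hpq⟩ := dich hn hh hk hnull
        exact def_case hh hk hpq hsec'
    exact key.congr fun a b c d => (qf_kn h k a b c d).symm

/-- trivial common kernel, minus a sum of two squares -/
lemma core_neg [FiniteDimensional ℝ V] (hh : Sy h) (hk : Sy k)
    (hsec : ∀ x y, qf (-1) 0 (-1) h k x y x y ≤ 0)
    (htriv : ∀ x, (∀ y, h x y = 0) → (∀ y, k x y = 0) → x = 0) : NegSq (qf (-1) 0 (-1) h k) := by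
  have hnull : ∀ x, x ≠ 0 → h x x = 0 → k x x ≠ 0 := by
    intro x hx hx1 hx2
    have h1 : ∀ y, h x y = 0 ∧ k x y = 0 := by
      intro y
      have h2 := hsec x y
      unfold qf kn at h2
      rw [hx1, hx2, hh.symm y x, hk.symm y x] at h2
      constructor <;> nlinarith [sq_nonneg (h x y), sq_nonneg (k x y)]
    exact hx (htriv x (fun y => (h1 y).1) fun y => (h1 y).2)
  rcases le_or_gt (Module.finrank ℝ V) 2 with hn | hn
  · exact low_case hn hh hk hsec
  · obtain ⟨p, q, hpq⟩ := dich hn hh hk hnull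
    exact def_case hh hk hpq hsec

/-- reduction to trivial common kernel -/
lemma reduce [FiniteDimensional ℝ V] (hh : Sy h) (hk : Sy k) {α β γ : ℝ}
    (H : ∀ W : Submodule ℝ V,
      (∀ x : W, (∀ y : W, h x y = 0) → (∀ y : W, k x y = 0) → x = 0) →
      NegSq (qf α β γ (fun a b : W => h a b) (fun a b : W => k a b))) :
    NegSq (qf α β γ h k) := by
  let N : Submodule ℝ V :=
    { carrier := {x | (∀ y, h x y = 0) ∧ ∀ y, k x y = 0}
      add_mem' := fun {a b} ha hb => ⟨fun y => by rw [hh.add, ha.1, hb.1, add_zero],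
        fun y => by rw [hk.add, ha.2, hb.2, add_zero]⟩
      zero_mem' := ⟨fun y => hh.zero y, fun y => hk.zero y⟩
      smul_mem' := fun t x hx => ⟨fun y => by rw [hh.smul, hx.1, mul_zero],
        fun y => by rw [hk.smul, hx.2, mul_zero]⟩ }
  obtain ⟨W, hW⟩ := Submodule.exists_isCompl N
  have hdec : ∀ x : V, ∃ w : W, x - w ∈ N := by
    intro x
    have hx : x ∈ N ⊔ W := by rw [hW.sup_eq_top]; trivial
    obtain ⟨a, ha, b, hb, hab⟩ := Submodule.mem_sup.1 hx
    refine ⟨⟨b, hb⟩, ?_⟩
    have : x - b = a := by rw [← hab]; abel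
    simpa [this] using ha
  obtain ⟨π, hπ⟩ : ∃ π : V →ₗ[ℝ] W, ∀ x, x - (π x : V) ∈ N := by
    have huniq : ∀ (x : V) (w w' : W), x - w ∈ N → x - w' ∈ N → w = w' := by
      intro x w w' h1 h2
      have h3 : ((w' : V) - w) ∈ N := by
        have := N.sub_mem h1 h2
        simpa using this
      have h4 : ((w' : V) - w) ∈ W := W.sub_mem w'.2 w.2
      have h5 : ((w' : V) - w) = 0 := by
        have := hW.disjoint.le_bot ⟨h3, h4⟩
        simpa using this
      exact Subtype.ext (sub_eq_zero.1 h5).symm
    choose π hπ using hdec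
    refine ⟨{ toFun := π, map_add' := fun x y => ?_, map_smul' := fun t x => ?_ }, hπ⟩
    · refine huniq (x + y) _ _ (hπ _) ?_
      have := N.add_mem (hπ x) (hπ y)
      have e : x + y - ((π x + π y : W) : V) = (x - π x) + (y - π y) := by
        push_cast
        abel
      rw [e]
      exact this
    · refine huniq (t • x) _ _ (hπ _) ?_
      have := N.smul_mem t (hπ x)
      have e : t • x - ((((RingHom.id ℝ) t) • π x : W) : V) = t • (x - π x) := by
        rw [smul_sub]
        rfl
      rw [e]
      exact this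
  have hval : ∀ x y, h x y = h (π x) (π y) ∧ k x y = k (π x) (π y) := by
    intro x y
    have h1 := hπ x
    have h2 := hπ y
    constructor
    · have e1 := h1.1 y
      have e2 := h2.1 (π x : V)
      rw [hh.sub] at e1
      rw [hh.sub, hh.symm y, hh.symm (π y : V)] at e2
      linarith
    · have e1 := h1.2 y
      have e2 := h2.2 (π x : V)
      rw [hk.sub] at e1
      rw [hk.sub, hk.symm y, hk.symm (π y : V)] at e2
      linarith
  obtain ⟨n, ξ, η, hres⟩ := H W (fun x h1 h2 => by
    have hx : (x : V) ∈ N := by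
      refine ⟨fun y => ?_, fun y => ?_⟩
      · have e := hπ y
        have e1 := e.1 (x : V)
        rw [hh.sub, hh.symm y, hh.symm (π y : V), h1 (π y)] at e1
        linarith
      · have e := hπ y
        have e1 := e.2 (x : V)
        rw [hk.sub, hk.symm y, hk.symm (π y : V), h2 (π y)] at e1
        linarith
    have := hW.disjoint.le_bot ⟨hx, x.2⟩
    exact Subtype.ext (by simpa using this))
  refine ⟨n, fun i => (ξ i).comp π, fun i => (η i).comp π, fun a b c d => ?_⟩
  have e : qf α β γ h k a b c d =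
      qf α β γ (fun a b : W => h a b) (fun a b : W => k a b) (π a) (π b) (π c) (π d) := by
    unfold qf kn
    rw [(hval a c).1, (hval b d).1, (hval a d).1, (hval b c).1, (hval a c).2, (hval b d).2,
      (hval a d).2, (hval b c).2]
  rw [e, hres]
  rfl

lemma Sy.restrict (hh : Sy h) (W : Submodule ℝ V) : Sy (fun a b : W => h a b) :=
  ⟨fun x x' y => by simpa using hh.add x x' y, fun t x y => by simpa using hh.smul t x y,
    fun x y => hh.symm x y⟩

/-- **A Kulkarni–Nomizu product of two symmetric forms with nonpositive sectional curvature is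
minus a sum of squares of decomposable two-forms.** -/
theorem kn_negSq [FiniteDimensional ℝ V] (hh : Sy h) (hk : Sy k)
    (hsec : ∀ x y, kn h k x y x y ≤ 0) : NegSq (kn h k) := by
  have key : NegSq (qf 0 (1 / 2) 0 h k) := reduce hh hk fun W hW =>
    (core_kn (hh.restrict W) (hk.restrict W) (fun x y => hsec x y) hW).congr
      fun a b c d => qf_kn _ _ a b c d
  exact key.congr fun a b c d => (qf_kn h k a b c d).symm

/-- **The same for minus the sum of two Kulkarni–Nomizu squares.** -/
theorem neg_negSq [FiniteDimensional ℝ V] (hh : Sy h) (hk : Sy k)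
    (hsec : ∀ x y, qf (-1) 0 (-1) h k x y x y ≤ 0) : NegSq (qf (-1) 0 (-1) h k) :=
  reduce hh hk fun W hW => core_neg (hh.restrict W) (hk.restrict W) (fun x y => hsec x y) hW

/-- **The quadratic span of two forms, all cases except the positive definite one.** -/
theorem span_negSq [FiniteDimensional ℝ V] (hh : Sy h) (hk : Sy k) {α β γ : ℝ}
    (hq : α * γ ≤ β ^ 2 ∨ α ≤ 0) (hsec : ∀ x y, qf α β γ h k x y x y ≤ 0) :
    NegSq (qf α β γ h k) := by
  by_cases hΔ : α * γ ≤ β ^ 2
  · -- a product of two linear factors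
    obtain ⟨p, q, r, s, h1, h2, h3⟩ : ∃ p q r s : ℝ, p * r = α ∧ p * s + q * r = 2 * β ∧
        q * s = γ := by
      by_cases hα : α = 0
      · exact ⟨0, 1, 2 * β, γ, by rw [hα]; ring, by ring, by ring⟩
      · have hs := Real.mul_self_sqrt (show 0 ≤ β ^ 2 - α * γ by linarith)
        set t := Real.sqrt (β ^ 2 - α * γ)
        refine ⟨α, β + t, 1, (β - t) / α, by ring, by field_simp; ring, ?_⟩
        field_simp
        nlinarith
    have e : ∀ a b c d, kn (fun x y => p * h x y + q * k x y) (fun x y => r * h x y + s * k x y)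
        a b c d = qf α β γ h k a b c d := by
      intro a b c d
      unfold qf
      rw [← h1, ← h2, ← h3]
      unfold kn
      ring
    exact (kn_negSq (hh.lin hk p q) (hh.lin hk r s) (fun x y => by rw [e]; exact hsec x y)).congr
      fun a b c d => (e a b c d).symm
  · have hα : α ≤ 0 := hq.resolve_left hΔ
    push Not at hΔ
    have hα' : α < 0 := by
      rcases hα.eq_or_lt with h0 | h0
      · rw [h0, zero_mul] at hΔ
        nlinarith [sq_nonneg β]
      · exact h0
    have hs1 := Real.mul_self_sqrt (show 0 ≤ -α by linarith)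
    have hs2 := Real.mul_self_sqrt (show 0 ≤ (β ^ 2 - α * γ) / α by
      rw [le_div_iff_of_neg hα']; linarith)
    set t := Real.sqrt (-α)
    set r := Real.sqrt ((β ^ 2 - α * γ) / α)
    have ht : t ≠ 0 := by
      intro h0
      rw [h0] at hs1
      linarith
    have e : ∀ a b c d, qf (-1) 0 (-1) (fun x y => t * h x y + (-(β / t)) * k x y)
        (fun x y => 0 * h x y + r * k x y) a b c d = qf α β γ h k a b c d := by
      intro a b c d
      have h1 : t ^ 2 = -α := by rw [pow_two, hs1]
      have h2 : r ^ 2 = (β ^ 2 - α * γ) / α := by rw [pow_two, hs2]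
      have h3 : (β / t) ^ 2 = -(β ^ 2 / α) := by
        rw [div_pow, h1, div_neg]
      have h4 : t * (β / t) = β := by field_simp
      have e1 : qf (-1) 0 (-1) (fun x y => t * h x y + (-(β / t)) * k x y)
        (fun x y => 0 * h x y + r * k x y) a b c d = -t ^ 2 * kn h h a b c d +
          2 * (t * (β / t)) * kn h k a b c d - ((β / t) ^ 2 + r ^ 2) * kn k k a b c d := by
        unfold qf kn
        ring
      have h5 : α ≠ 0 := hα'.ne
      rw [e1, h1, h2, h3, h4]
      unfold qf
      field_simp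
      ring
    exact (neg_negSq (hh.lin hk _ _) (hh.lin hk _ _) (fun x y => by
      rw [e]; exact hsec x y)).congr fun a b c d => (e a b c d).symm

end Pool.Agent.V11287.KN
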